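import Pool.Agent.SSR75.Fin
import Pool.Agent.SSR75.Size

/-!
# Consistency of Lipschitz data is at least as hard as comparing sums of square roots

The sum-of-square-roots problem: given positive integers `d_1, …, d_n` and `K`, decide whether
`√d_1 + ⋯ + √d_n ≤ K` (Garey, Graham and Johnson 1976). It is not known to be in NP, nor in the
polynomial hierarchy. We reduce it to the consistency problem: for `N ≥ 12` with `d_i ≤ N` (e.g. the
largest of these numbers) the instance `inst N d n K` is consistent if and only if
`√d_1 + ⋯ + √d_n ≤ K`. It has `3 n + 1` derivative steps, all with the same polygon `[-1, 1] ^ 2`, and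
two function steps, and all its rational numbers are `A / (60 N)` with integers `A` of size at most
`600 N ^ 2 (n + 1) (K + 1)`, given by explicit formulas; so it is written down in polynomial time.

So an algorithm which decides consistency in polynomial time (or a proof that the problem is in NP, or
in the polynomial hierarchy) would do the same for sums of square roots, even for a single polygon, for
chains of disks in which only consecutive disks meet, and for two function steps.

The construction. With the polygon `[-1, 1] ^ 2` the condition for `h` on a disk is
`|h(x) - h(y)| ≤ |x_1 - y_1| + |x_2 - y_2|`, so the largest possible difference of `h` between two places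
is the infimum of the `ℓ¹`-length of the chains through the disks. The disks form a chain from the left
to the right: link disk, left disk and right disk of the gadget `1`, link disk, …, link disk. The two
disks of the gadget `i` have the radius `R_i = (N + d_i / N) / 2` and the distance
`2 (N - R_i)` of their centres, so their common part has the half height
`√(R_i² - (N - R_i)²) = √d_i`; the centres are at the height `- 3 R_i / 5`. The left disk meets the
preceding link disk and the right disk meets the following one in a thin lens whose lowest point has
the height `0` (the radii of these disks to this point have the directions `(-4, 3) / 5`, `(3, -4) / 5`).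
So a chain has to go down from the height `0` to the height `√d_i - 3 R_i / 5 < 0` and back up again in
every gadget, and the infimum of its length is a rational number minus `2 (√d_1 + ⋯ + √d_n)`.
-/

set_option autoImplicit false

noncomputable section

namespace Pool.Agent.Results.MP_056715_lc.SumOfSquareRoots

open Pool.Agent.SSR75

/-- **Consistency is at least as hard as comparing sums of square roots.** Let `d 1, …, d n` be positive
integers, `N ≥ 12` with `d i ≤ N`, and `K` an integer `≥ 0`. The instance `inst N d n K` is valid (the
two families are step functions), and it is consistent if and only if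
`√(d 1) + ⋯ + √(d n) ≤ K`. It has two function steps and `3 n + 1` derivative steps, all with the polygon
`[-1, 1] ^ 2`, and all its rational numbers are `A / (60 N)` with `|A| ≤ 600 N ^ 2 (n + 1) (K + 1)`. (The
numbers `d 0` and `d (n + 1)` can be chosen as `0`.) -/
theorem result (N n K : ℕ) (d : ℕ → ℕ) (hN : 12 ≤ N) (hd : ∀ i, d i ≤ N)
    (hpos : ∀ i, i < n → 0 < d (i + 1)) :
    (inst N d n K).Valid ∧
    ((inst N d n K).Consistent ↔ ∑ i ∈ Finset.range n, √(d (i + 1) : ℝ) ≤ K) ∧
    (inst N d n K).f.length = 2 ∧ (inst N d n K).g.length = 3 * n + 1 ∧
    (∀ s ∈ (inst N d n K).g, s.b = [(-1, -1), (-1, 1), (1, -1), (1, 1)]) ∧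
    ∀ q ∈ (inst N d n K).nums, ∃ A : ℤ, q = (A : ℚ) / (60 * (N : ℚ)) ∧
      |A| ≤ 600 * (N : ℤ) ^ 2 * (n + 1) * (K + 1) :=
  ⟨valid_inst hN n K, ⟨le_of_consistent hN hd hpos, consistent_of_le hN hd⟩, rfl, length_g n K,
    square_g n K, nums_bound hN hd n K⟩

end Pool.Agent.Results.MP_056715_lc.SumOfSquareRoots
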